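import Pool.Agent.helper60.DB.SpecI

/-!
# Row bi:DV (MP_fb2c2a_nt): degree of `Dl p` and its values at the cusps
-/

namespace Pool.Agent.helper60.DB

open Polynomial Finset Pool.Agent.helper60.DK

theorem DV_hm_natDegree (d : ℕ) (f : ℤ[X]) : (DA.hm d f).natDegree ≤ 2 * d := by
  unfold DA.hm
  apply natDegree_sum_le_of_forall_le
  intro i hi
  have hi' : i ≤ d := by
    have := mem_range.mp hi
    omega
  have h1 : ((X ^ 2 - 1 : ℤ[X]) ^ i).natDegree ≤ i * 2 := by
    refine (natDegree_pow_le).trans (Nat.mul_le_mul_left _ ?_)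
    refine (natDegree_sub_le _ _).trans (max_le (natDegree_X_pow_le 2) ?_)
    simp
  have h2 : ((4 - X ^ 2 : ℤ[X]) ^ (d - i)).natDegree ≤ (d - i) * 2 := by
    refine (natDegree_pow_le).trans (Nat.mul_le_mul_left _ ?_)
    refine (natDegree_sub_le _ _).trans (max_le ?_ (natDegree_X_pow_le 2))
    rw [natDegree_ofNat]
    exact Nat.zero_le _
  have h3 : ((X ^ 2 - 1 : ℤ[X]) ^ i * (4 - X ^ 2) ^ (d - i)).natDegree ≤ i * 2 + (d - i) * 2 :=
    natDegree_mul_le.trans (Nat.add_le_add h1 h2)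
  refine (natDegree_C_mul_le _ _).trans (h3.trans ?_)
  omega

theorem DV_hm_eval (d : ℕ) (f : ℤ[X]) (a : ℤ) : (DA.hm d f).eval a =
    ∑ i ∈ range (d + 1), f.coeff i * ((a ^ 2 - 1) ^ i * (4 - a ^ 2) ^ (d - i)) := by
  unfold DA.hm
  rw [eval_finsetSum]
  refine sum_congr rfl fun i _ => ?_
  simp

theorem DV_hm_one (d : ℕ) (f : ℤ[X]) (a : ℤ) (ha : a ^ 2 = 1) :
    (DA.hm d f).eval a = f.coeff 0 * 3 ^ d := by
  rw [DV_hm_eval, sum_eq_single 0, ha]
  · norm_num
  · intro i _ hi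
    rw [ha, sub_self, zero_pow hi]
    ring
  · intro h
    simp at h

theorem DV_hm_two (d : ℕ) (f : ℤ[X]) (a : ℤ) (ha : a ^ 2 = 4) :
    (DA.hm d f).eval a = f.coeff d * 3 ^ d := by
  rw [DV_hm_eval, sum_eq_single d, ha]
  · norm_num
  · intro i hi hid
    have h1 := mem_range.mp hi
    rw [ha, sub_self, zero_pow (by omega)]
    ring
  · intro h
    simp at h

theorem DV_Kf_eval (h : ℕ) (a : ℤ) : (Kf h).eval a =
    ∑ k ∈ range (h + 1), c3 k * 16 ^ (h - k) *
      (((a - 1) * (a + 1) ^ 3) ^ k * ((a + 2) * (a - 2) ^ 3) ^ (h - k)) := by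
  unfold Kf UU VV
  rw [eval_finsetSum]
  refine sum_congr rfl fun i _ => ?_
  simp

theorem DV_Kf_one (h : ℕ) (a : ℤ) (ha : (a - 1) * (a + 1) ^ 3 = 0) : (Kf h).eval a =
    16 ^ h * ((a + 2) * (a - 2) ^ 3) ^ h := by
  rw [DV_Kf_eval, sum_eq_single 0]
  · simp [c3]
  · intro i _ hi
    rw [ha, zero_pow hi]
    ring
  · intro h
    simp at h

theorem DV_Kf_two (h : ℕ) : (Kf h).eval 2 = c3 h * 27 ^ h := by
  rw [DV_Kf_eval, sum_eq_single h]
  · norm_num
  · intro i hi hih
    have h1 := mem_range.mp hi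
    have h2 : ((2 : ℤ) + 2) * (2 - 2) ^ 3 = 0 := by norm_num
    rw [h2, zero_pow (by omega)]
    ring
  · intro h
    simp at h

theorem DV_Kf_natDegree (h : ℕ) : (Kf h).natDegree ≤ 4 * h := by
  unfold Kf
  apply natDegree_sum_le_of_forall_le
  intro i hi
  have hi' : i ≤ h := by
    have := mem_range.mp hi
    omega
  have hl : ∀ c : ℤ, ((X : ℤ[X]) + C c).natDegree ≤ 1 := fun c => (natDegree_X_add_C c).le
  have hU : (UU).natDegree ≤ 4 := by
    have h1 : UU = (X + C (-1)) * (X + C 1) ^ 3 := by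
      unfold UU
      simp [sub_eq_add_neg]
    rw [h1]
    refine natDegree_mul_le.trans (Nat.add_le_add (hl _) (natDegree_pow_le.trans
      (Nat.mul_le_mul_left 3 (hl _))))
  have hV : (VV).natDegree ≤ 4 := by
    have h1 : VV = (X + C 2) * (X + C (-2)) ^ 3 := by
      unfold VV
      simp [sub_eq_add_neg]
    rw [h1]
    refine natDegree_mul_le.trans (Nat.add_le_add (hl _) (natDegree_pow_le.trans
      (Nat.mul_le_mul_left 3 (hl _))))
  have h1 : (UU ^ i).natDegree ≤ i * 4 := natDegree_pow_le.trans (Nat.mul_le_mul_left i hU)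
  have h2 : (VV ^ (h - i)).natDegree ≤ (h - i) * 4 :=
    natDegree_pow_le.trans (Nat.mul_le_mul_left _ hV)
  refine (natDegree_C_mul_le _ _).trans (natDegree_mul_le.trans ((Nat.add_le_add h1 h2).trans ?_))
  omega

theorem DV_St_zero {p : ℕ} [hp : Fact p.Prime] (h5 : 5 ≤ p) : (DA.St p).coeff 0 = 1 := by
  unfold DA.St
  rw [finsetSum_coeff, sum_eq_single 0]
  · rw [coeff_C_mul, coeff_X_pow]
    simp [Sz_coeff_zero (p := p) h5]
  · intro k _ hk
    rw [coeff_C_mul, coeff_X_pow]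
    simp [Ne.symm hk]
  · intro h
    simp at h

theorem DV_Dl_eval (p : ℕ) (a : ℤ) : (Dl p).eval a =
    4 * (-1) ^ hh p * 16 ^ hh p * (DA.hm (3 * hh p) (DA.St p)).eval a
      - (a + 2) ^ p * (Kf (hh p)).eval a - (2 - a) ^ p * (Kf (hh p)).eval (-a) := by
  unfold Dl
  rw [eval_sub, eval_sub, eval_mul, eval_mul, eval_mul, eval_C, eval_comp]
  simp

theorem DV (hSC : SC_stmt) : DV_stmt := by
  intro p hp h5
  have ho : 2 * hh p + 1 = p := by
    have := p_odd (p := p) (by omega)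
    unfold hh; omega
  set h := hh p with hhdef
  have hpow : ∀ a : ℤ, a ^ p = a * (a ^ 2) ^ h := by
    intro a
    rw [← pow_mul, ← pow_succ', ho]
  have h27 : (3 : ℤ) ^ (3 * h) = 27 ^ h := by
    rw [pow_mul]
    norm_num
  have hK1 : (Kf h).eval 1 = 16 ^ h * (-3) ^ h := by
    rw [DV_Kf_one h 1 (by norm_num)]
    norm_num
  have hKm : (Kf h).eval (-1) = 16 ^ h * (-27) ^ h := by
    rw [DV_Kf_one h (-1) (by norm_num)]
    norm_num
  have e1 : (-27 : ℤ) ^ h = (-1) ^ h * 27 ^ h := by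
    rw [← mul_pow]
    norm_num
  have e2 : (9 : ℤ) ^ h * (-3) ^ h = (-27) ^ h := by
    rw [← mul_pow]
    norm_num
  refine ⟨?_, ?_, ?_, ?_, ?_⟩
  · have d1 : (C (4 * (-1 : ℤ) ^ h * 16 ^ h) * DA.hm (3 * h) (DA.St p)).natDegree ≤ 6 * h := by
      refine (natDegree_C_mul_le _ _).trans ((DV_hm_natDegree _ _).trans ?_)
      omega
    have d2 : (((X : ℤ[X]) + 2) ^ p * Kf h).natDegree ≤ p + 4 * h := by
      refine natDegree_mul_le.trans (Nat.add_le_add ?_ (DV_Kf_natDegree h))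
      have h1 : ((X : ℤ[X]) + 2).natDegree ≤ 1 := (natDegree_X_add_C (2 : ℤ)).le
      refine natDegree_pow_le.trans ((Nat.mul_le_mul_left p h1).trans (by omega))
    have d3 : (((2 : ℤ[X]) - X) ^ p * (Kf h).comp (-X)).natDegree ≤ p + 4 * h := by
      refine natDegree_mul_le.trans (Nat.add_le_add ?_ ?_)
      · have h1 : ((2 : ℤ[X]) - X).natDegree ≤ 1 := by
          refine (natDegree_sub_le _ _).trans (max_le ?_ natDegree_X_le)
          rw [natDegree_ofNat]
          exact Nat.zero_le _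
        refine natDegree_pow_le.trans ((Nat.mul_le_mul_left p h1).trans (by omega))
      · refine natDegree_comp_le.trans ?_
        rw [natDegree_neg, natDegree_X, mul_one]
        exact DV_Kf_natDegree h
    have d4 : (Dl p).natDegree ≤ p + 4 * h := by
      unfold Dl
      refine (natDegree_sub_le _ _).trans (max_le ((natDegree_sub_le _ _).trans (max_le ?_ d2)) d3)
      exact d1.trans (by omega)
    omega
  · have : (Dl p).eval 1 = 0 := by
      rw [DV_Dl_eval, ← hhdef, DV_hm_one _ _ 1 (by norm_num), DV_St_zero h5, h27, hpow, hpow, hK1, hKm]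
      norm_num
      rw [e1]
      have := e2
      rw [e1] at this
      linear_combination (-3 * 16 ^ h) * this
    rw [this]
    exact dvd_zero _
  · have : (Dl p).eval (-1) = 0 := by
      rw [DV_Dl_eval, ← hhdef, DV_hm_one _ _ (-1) (by norm_num), DV_St_zero h5, h27, hpow, hpow,
        neg_neg, hK1, hKm]
      norm_num
      rw [e1]
      have := e2
      rw [e1] at this
      linear_combination (-3 * 16 ^ h) * this
    rw [this]
    exact dvd_zero _
  · obtain ⟨z, hz⟩ := hSC p h5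
    have hz' : (DA.St p).coeff (3 * h) = (-1) ^ h * c3 h + (p : ℤ) ^ 2 * z := by
      linear_combination hz
    refine ⟨4 * (-1) ^ h * 16 ^ h * 27 ^ h * z, ?_⟩
    have hsq : ((-1 : ℤ) ^ h) * (-1) ^ h = 1 := by
      rw [← mul_pow]
      norm_num
    rw [DV_Dl_eval, ← hhdef, DV_hm_two _ _ 2 (by norm_num), hz', h27, hpow, hpow, DV_Kf_two]
    norm_num
    linear_combination (4 * 16 ^ h * 27 ^ h * c3 h) * hsq
  · obtain ⟨z, hz⟩ := hSC p h5
    have hz' : (DA.St p).coeff (3 * h) = (-1) ^ h * c3 h + (p : ℤ) ^ 2 * z := by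
      linear_combination hz
    refine ⟨4 * (-1) ^ h * 16 ^ h * 27 ^ h * z, ?_⟩
    have hsq : ((-1 : ℤ) ^ h) * (-1) ^ h = 1 := by
      rw [← mul_pow]
      norm_num
    rw [DV_Dl_eval, ← hhdef, DV_hm_two _ _ (-2) (by norm_num), hz', h27, hpow, hpow, neg_neg,
      DV_Kf_two]
    norm_num
    linear_combination (4 * 16 ^ h * 27 ^ h * c3 h) * hsq

end Pool.Agent.helper60.DB
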